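import Pool.Agent.helper37.ND.Spec

/-!
# Row nd:TDI (MP_baa4d7_al): the claim for the type `N`
-/

set_option autoImplicit false

namespace Pool.Agent.ND

open Pool.Agent.helper58.DC Pool.Agent.DI Pool.Agent.GR Pool.Agent.OB Pool.Agent.DR Pool.Agent.FI Pool.Agent.FI3 Pool.Agent.FI4 Pool.Agent.FI4I Pool.Agent.LE Pool.Agent.L5 Pool.Agent.NAB

theorem TDI_cnt {α : Type} {S : Set α} (hS : S.Finite) (P : α → Prop) [DecidablePred P] :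
    ∑ᶠ a ∈ S, (if P a then (1 : ℂ) else 0) = (({a | a ∈ S ∧ P a}.ncard : ℕ) : ℂ) := by
  classical
  rw [finsum_mem_eq_finite_toFinset_sum _ hS, Finset.sum_boole]
  congr 1
  rw [← Set.ncard_coe_finset]
  congr 1
  ext a
  simp

theorem TDI_van {G : Type} [Group G] {N H : Subgroup G} (hH : H ≤ N) {ψ : G → ℂ} (hψ : ψ ∈ IrrOn H) :
    ∀ x, x ∉ N → ψ x = 0 := fun x hx => hψ.1 x (fun h => hx (hH h))

theorem TDI_def {p : ℕ} {G : Type} [Group G] {N H : Subgroup G} (hH : H ≤ N) (ψ : G → ℂ) (d : ℤ) :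
    Defect p (H.subgroupOf N) (rN N ψ) d ↔ Defect p H ψ d := by
  have h1 : rN N ψ 1 = ψ 1 := rfl
  unfold Defect
  rw [Nat.card_congr (Subgroup.subgroupOfEquivOfLe hH).toEquiv, h1]

theorem TDI (hNEG : NEG_stmt) (hNTK : NTK_stmt) (hTR1 : TR1_stmt) (hTR2 : TR2_stmt) (hTR3 : TR3_stmt)
    (hTPR : Pool.Agent.FI.TPR_stmt) (hB2 : B2_stmt) : TDI_stmt := by
  classical
  intro p e m M hM G _ _ N d hMN φ hφ z x hU
  have hφN : ∀ y, y ∉ N → φ y = 0 := TDI_van le_rfl hφ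
  have hE : Eg p e z ≤ N := (hNEG p e hM.pr G z).2.1 N hU.zm
  have htop : N.subgroupOf N = ⊤ := Subgroup.subgroupOf_self N
  have hK : N ⊓ nz (Eg p e z) ≤ N := inf_le_left
  obtain ⟨a1, a2, a3⟩ := hTR1 G N (N ⊓ nz (Eg p e z)) hK
  obtain ⟨b1, b2, b3⟩ := hTR1 G N N le_rfl
  have hχ : rN N φ ∈ Irr N := by
    have h := (b1 φ hφN).1 hφ
    rw [htop, (hTPR p M hM N).1] at h
    exact h
  have hU' : Ucl p e m M (⊤ : Subgroup N) (rN N φ) ⟨z, hU.zm⟩ ⟨x, hU.xm⟩ := by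
    have h := (hNTK p e m M G N N le_rfl φ hφN ⟨z, hU.zm⟩ ⟨x, hU.xm⟩).2 hU
    rwa [htop] at h
  have hEg : ∀ y : N, Eg p e y = (Eg p e (y : G)).subgroupOf N := fun y =>
    ((hNEG p e hM.pr G z).2.2.2.2.2.2 N y).symm
  have hnz : nz (Eg p e (⟨z, hU.zm⟩ : N)) = (N ⊓ nz (Eg p e z)).subgroupOf N := by
    rw [hEg, ((hTR3 p G N).1 (Eg p e z) hE).2, Subgroup.inf_subgroupOf_left]
  have fN : ∀ K : Subgroup N, (IrrOn K).Finite := fun K => (hB2 N K).1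
  have key := hMN _ hχ _ _ hU'
  have key2 : ∑ᶠ ψ ∈ Bl M (⊤ : Subgroup N) (rN N φ), (if Defect p (⊤ : Subgroup N) ψ d then (1 : ℂ) else 0) =
      ∑ᶠ η ∈ BE p e m M (⊤ : Subgroup N) (nz (Eg p e (⟨z, hU.zm⟩ : N))) (Eg p e (⟨z, hU.zm⟩ : N)) (rN N φ),
        (if Defect p (nz (Eg p e (⟨z, hU.zm⟩ : N))) η d then (1 : ℂ) else 0) := by
    rw [TDI_cnt ((fN _).subset fun η hη => hη.1), TDI_cnt ((fN _).subset fun η hη => hη.1), key]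
  have e1 : ∑ᶠ ψ ∈ Bl M N φ, (if Defect p N ψ d then (1 : ℂ) else 0) =
      ∑ᶠ ψ ∈ Bl M (⊤ : Subgroup N) (rN N φ), (if Defect p (⊤ : Subgroup N) ψ d then (1 : ℂ) else 0) := by
    refine finsum_mem_eq_of_bijOn (rN N) ⟨?_, ?_, ?_⟩ ?_
    · rintro η ⟨hη, hs⟩
      refine ⟨?_, ?_⟩
      · have h := (b1 η (TDI_van le_rfl hη)).1 hη
        rwa [htop] at h
      · have h := ((hTR2 G M N).2.1 N le_rfl η φ (TDI_van le_rfl hη) hφN).1 hs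
        rwa [htop] at h
    · rintro η ⟨hη, -⟩ η' ⟨hη', -⟩ he
      exact b3 η η' (TDI_van le_rfl hη) (TDI_van le_rfl hη') he
    · rintro η' ⟨hη', hs⟩
      rw [← htop] at hη' hs
      obtain ⟨η, hη, rfl⟩ := b2 η' hη'
      exact ⟨η, ⟨hη, ((hTR2 G M N).2.1 N le_rfl η φ (TDI_van le_rfl hη) hφN).2 hs⟩, rfl⟩
    · rintro η ⟨hη, -⟩
      have h := TDI_def (p := p) (le_refl N) η d
      rw [htop] at h
      simp only [h]
  rw [e1, key2, hnz, hEg]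
  symm
  refine finsum_mem_eq_of_bijOn (rN N) ⟨?_, ?_, ?_⟩ ?_
  · rintro η ⟨hη, hs, z1, x1, h1, h2⟩
    refine ⟨(a1 η (TDI_van hK hη)).1 hη, ?_, ⟨z1, hK h1.zm⟩, ⟨x1, hK h1.xm⟩, ?_, ?_⟩
    · have h := ((hTR2 G M N).2.1 N le_rfl η φ (TDI_van hK hη) hφN).1 hs
      rwa [htop] at h
    · exact (hNTK p e m M G N _ hK η (TDI_van hK hη) ⟨z1, hK h1.zm⟩ ⟨x1, hK h1.xm⟩).2 h1
    · rw [hEg, h2]
  · rintro η ⟨hη, -⟩ η' ⟨hη', -⟩ he
    exact a3 η η' (TDI_van hK hη) (TDI_van hK hη') he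
  · rintro η' ⟨hη', hs, z1, x1, h1, h2⟩
    obtain ⟨η, hη, rfl⟩ := a2 η' hη'
    refine ⟨η, ⟨hη, ?_, (z1 : G), (x1 : G), ?_, ?_⟩, rfl⟩
    · refine ((hTR2 G M N).2.1 N le_rfl η φ (TDI_van hK hη) hφN).2 ?_
      rwa [htop]
    · exact (hNTK p e m M G N _ hK η (TDI_van hK hη) z1 x1).1 h1
    · rw [hEg z1] at h2
      have h3 : Eg p e (z1 : G) ≤ N := (hNEG p e hM.pr G (z1 : G)).2.1 N z1.2
      have h4 := Subgroup.subgroupOf_inj.1 h2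
      rwa [inf_eq_left.2 h3, inf_eq_left.2 hE] at h4
  · rintro η ⟨hη, -⟩
    have h := TDI_def (p := p) hK η d
    simp only [h]

end Pool.Agent.ND
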