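import Pool.Agent.helper37.ND.Spec
import Pool.Agent.helper97.ND.TDI

/-!
# Row nd:GKE (MP_baa4d7_al): `k(B) = k(BE)`
-/

set_option autoImplicit false

namespace Pool.Agent.ND

open Pool.Agent.helper58.DC Pool.Agent.DI Pool.Agent.GR Pool.Agent.OB Pool.Agent.DR Pool.Agent.FI Pool.Agent.FI3 Pool.Agent.FI4 Pool.Agent.FI4I Pool.Agent.LE Pool.Agent.L5 Pool.Agent.NAB

theorem GKE_comm {α β : Type} [Finite α] [Finite β] (S : Set α) (f : α → β → ℂ) :
    ∑ᶠ a ∈ S, ∑ᶠ b, f a b = ∑ᶠ b, ∑ᶠ a ∈ S, f a b := by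
  have := finsum_mem_comm f (Set.toFinite S) (Set.finite_univ (α := β))
  simpa only [finsum_mem_univ] using this

theorem GKE_one {α : Type} {S : Set α} (hS : S.Finite) : ∑ᶠ a ∈ S, (1 : ℂ) = ((S.ncard : ℕ) : ℂ) := by
  have h := TDI_cnt hS (fun _ => True)
  simpa using h

theorem GKE (hGKN : GKN_stmt) (hGKQ : GKQ_stmt) (hNLC : NLC_stmt) (hNQU : NQU_stmt) (hTDC : TDC_stmt)
    (hTPR : Pool.Agent.FI.TPR_stmt) (hB2 : B2_stmt) : GKE_stmt := by
  classical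
  intro p e m M hM hme G _ _ χ hχ z x hU hMN
  have fin : ∀ K : Subgroup G, (IrrOn K).Finite := fun K => (hB2 G K).1
  have tpr := hTPR p M hM G
  have hBq : ∀ K : Subgroup G, Bq M ⊤ K χ = Blk M χ K := fun K => (tpr.2.2.2.1 χ K).symm
  have hχ' : χ ∈ IrrOn (⊤ : Subgroup G) := by
    rw [tpr.1]
    exact hχ
  have hCz : ∀ (E' : Subgroup G) (y : G), Cz (⊤ : Subgroup G) y ⊓ nz E' = Cz (nz E') y := by
    intro E' y
    unfold Cz
    rw [top_inf_eq, inf_comm]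
  -- the sum for `⊤`
  have h1 := hGKN p M hM G ⊤ χ
  have h2 : ∀ y : G, (Nat.card (Cz (⊤ : Subgroup G) y) : ℂ) * ∑ᶠ η ∈ Bq M ⊤ (Cz (⊤ : Subgroup G) y) χ, EE p (Cz (⊤ : Subgroup G) y) η η =
      ∑ᶠ E' : Subgroup G, (Nat.card (Cz (⊤ : Subgroup G) y ⊓ nz E' : Subgroup G) : ℂ) *
        lE p e m M (⊤ : Subgroup G) (Cz (⊤ : Subgroup G) y ⊓ nz E') E' χ := by
    intro y
    rw [← hNLC p e m M hM hme G χ hχ z x hU _ (hMN _), hBq]
    rfl
  have h3 : (Nat.card (⊤ : Subgroup G) : ℂ) * ((Bl M (⊤ : Subgroup G) χ).ncard : ℂ) =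
      ∑ᶠ E' : Subgroup G, ∑ᶠ y ∈ {y : G | y ∈ (⊤ : Subgroup G) ∧ PEl p y},
        (Nat.card (Cz (⊤ : Subgroup G) y ⊓ nz E' : Subgroup G) : ℂ) *
          lE p e m M (⊤ : Subgroup G) (Cz (⊤ : Subgroup G) y ⊓ nz E') E' χ := by
    rw [h1, ← GKE_comm]
    exact finsum_mem_congr rfl fun y _ => h2 y
  -- the terms for `E'`
  have h4 : ∀ E' : Subgroup G, ∑ᶠ y ∈ {y : G | y ∈ (⊤ : Subgroup G) ∧ PEl p y},
        (Nat.card (Cz (⊤ : Subgroup G) y ⊓ nz E' : Subgroup G) : ℂ) *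
          lE p e m M (⊤ : Subgroup G) (Cz (⊤ : Subgroup G) y ⊓ nz E') E' χ =
      (Nat.card ((⊤ : Subgroup G) ⊓ nz E' : Subgroup G) : ℂ) * ∑ᶠ η ∈ BE p e m M (⊤ : Subgroup G) (⊤ ⊓ nz E') E' χ, (1 : ℂ) := by
    intro E'
    have hn : ∀ y : G, PEl p y → y ∉ nz E' → lE p e m M (⊤ : Subgroup G) (Cz (⊤ : Subgroup G) y ⊓ nz E') E' χ = 0 := by
      intro y hy hyn
      unfold lE
      have h5 : BE p e m M (⊤ : Subgroup G) (Cz (⊤ : Subgroup G) y ⊓ nz E') E' χ = ∅ := by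
        ext η
        simp only [Set.mem_empty_iff_false, iff_false]
        intro hη
        exact hyn ((hGKQ p e m M hM hme G χ hχ z x hU E' y hy).2.2 η hη)
      rw [h5, finsum_mem_empty]
    rw [top_inf_eq, GKE_one ((fin _).subset fun η hη => hη.1)]
    have h5 : ∑ᶠ y ∈ {y : G | y ∈ (⊤ : Subgroup G) ∧ PEl p y},
        (Nat.card (Cz (⊤ : Subgroup G) y ⊓ nz E' : Subgroup G) : ℂ) *
          lE p e m M (⊤ : Subgroup G) (Cz (⊤ : Subgroup G) y ⊓ nz E') E' χ =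
        ∑ᶠ y ∈ {y : G | y ∈ nz E' ∧ PEl p y}, (Nat.card (Cz (nz E') y) : ℂ) *
          lE p e m M (⊤ : Subgroup G) (Cz (nz E') y) E' χ := by
      rw [finsum_mem_def, finsum_mem_def]
      refine finsum_congr fun y => ?_
      simp only [Set.indicator_apply, Set.mem_ofPred_eq]
      by_cases hy : PEl p y
      · rw [if_pos ⟨Subgroup.mem_top y, hy⟩]
        by_cases hyn : y ∈ nz E'
        · rw [if_pos ⟨hyn, hy⟩, hCz]
        · rw [if_neg (fun h => hyn h.1), hn y hy hyn, mul_zero]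
      · rw [if_neg (fun h => hy h.2), if_neg (fun h => hy h.2)]
    rw [h5]
    by_cases hne : (BE p e m M (⊤ : Subgroup G) (nz E') E' χ).Nonempty
    · obtain ⟨φ, hφ⟩ := hne
      have h6 := (hNQU p e m M hM hme G ⊤ E' χ hχ' φ (by rw [top_inf_eq]; exact hφ)).1
      rw [top_inf_eq] at h6
      rw [h6, hGKN p M hM G (nz E') φ]
      refine finsum_mem_congr rfl fun y hy => ?_
      rw [(hGKQ p e m M hM hme G χ hχ z x hU E' y hy.2).1 hy.1 φ hφ]
      rfl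
    · rw [Set.not_nonempty_iff_eq_empty] at hne
      rw [hne, Set.ncard_empty, Nat.cast_zero, mul_zero]
      refine (finsum_mem_congr rfl fun y hy => ?_).trans (finsum_mem_zero _)
      have h6 : BE p e m M (⊤ : Subgroup G) (Cz (nz E') y) E' χ = ∅ := by
        ext η
        simp only [Set.mem_empty_iff_false, iff_false]
        intro hη
        obtain ⟨φ, hφ, -⟩ := (hGKQ p e m M hM hme G χ hχ z x hU E' y hy.2).2.1 hy.1 η hη
        rw [hne] at hφ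
        exact hφ
      unfold lE
      rw [h6, finsum_mem_empty, mul_zero]
  have h5 := hTDC p e m M hM hme G ⊤ χ hχ' z x hU (fun _ _ => (1 : ℂ)) (fun _ _ _ _ => rfl)
  rw [finsum_congr h4, h5, top_inf_eq, GKE_one ((fin _).subset fun η hη => hη.1)] at h3
  have h6 : (Nat.card (⊤ : Subgroup G) : ℂ) ≠ 0 := by exact_mod_cast Nat.card_pos.ne'
  have h7 := mul_left_cancel₀ h6 h3
  exact_mod_cast h7

end Pool.Agent.ND
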