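import Pool.Agent.helper37.ND.Spec
import Pool.Agent.helper15.NA.NTC
import Pool.Agent.helper14.NA.NBC

/-!
# Row nd:TDC (MP_baa4d7_al): sum over all subgroups `E'` with an invariant weight
-/

set_option autoImplicit false

namespace Pool.Agent.ND

open Pool.Agent.helper58.DC Pool.Agent.DI Pool.Agent.GR Pool.Agent.OB Pool.Agent.DR Pool.Agent.FI Pool.Agent.FI3 Pool.Agent.FI4 Pool.Agent.FI4I Pool.Agent.LE Pool.Agent.L5 Pool.Agent.NAB

theorem TDC_conj (hNEG : NEG_stmt) (hNUB : NUB_stmt) (hCJG : CJG_stmt) {p e m : ℕ} {M : Ideal (integralClosure ℤ ℂ)}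
    (hS : Setup p M) {G : Type} [Group G] [Finite G] {L K E : Subgroup G} {ψ : G → ℂ} {l : G} (hl : l ∈ L)
    (W : Subgroup G → (G → ℂ) → ℂ) (hW : ∀ l ∈ L, ∀ K η, W (cjS l K) (cjF l η) = W K η) :
    ∑ᶠ η ∈ BE p e m M L (cjS l K) (cjS l E) ψ, W (cjS l K) η = ∑ᶠ η ∈ BE p e m M L K E ψ, W K η := by
  symm
  refine finsum_mem_eq_of_bijOn (cjF l) ⟨?_, ?_, ?_⟩ ?_
  · intro η hη
    exact NBC_map hNEG hNUB hCJG hS hS.pr hl hη
  · intro η _ η' _ he
    have h1 := congrArg (cjF l⁻¹) he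
    rw [NBC_cjF, NBC_cjF] at h1
    exact h1
  · intro η hη
    refine ⟨cjF l⁻¹ η, ?_, NBC_cjF' l η⟩
    have h1 := NBC_map hNEG hNUB hCJG hS hS.pr (L.inv_mem hl) hη
    rw [NBC_cjS, NBC_cjS] at h1
    exact h1
  · intro η _
    exact (hW l hl K η).symm

theorem TDC (hNEG : NEG_stmt) (hNUB : NUB_stmt) (hCJG : CJG_stmt) (hNUF : NUF_stmt) (hNUE : NUE_stmt) :
    TDC_stmt := by
  classical
  intro p e m M hS hme G _ _ L ψ hψ z x hU W hW
  rw [NTC_card L (Eg p e z)]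
  let _ : Fintype (Subgroup G) := Fintype.ofFinite _
  rw [finsum_eq_sum_of_fintype, finsum_eq_sum_of_fintype, Finset.sum_mul]
  refine Finset.sum_congr rfl fun E' _ => ?_
  by_cases h : ∃ l ∈ L, E' = cjS l (Eg p e z)
  · obtain ⟨l, hl, rfl⟩ := h
    rw [NTC_fib _ _ _ hl, NTC_nz _ _ _ hl, NTC_cd, TDC_conj hNEG hNUB hCJG hS hl W hW]
  · have h1 : {l : G | l ∈ L ∧ cjS l (Eg p e z) = E'}.ncard = 0 := by
      have : {l : G | l ∈ L ∧ cjS l (Eg p e z) = E'} = ∅ := by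
        ext l
        simp only [Set.mem_empty_iff_false, iff_false]
        rintro ⟨hl, he⟩
        exact h ⟨l, hl, he.symm⟩
      rw [this, Set.ncard_empty]
    have h2 : BE p e m M L (L ⊓ nz E') E' ψ = ∅ := by
      ext η
      simp only [Set.mem_empty_iff_false, iff_false]
      rintro ⟨hη, hSB, z', x', hU', hE⟩
      have h3 := hNUF p e m M hS hme G L E' η hη z' x' hU' hE ψ hSB
      obtain ⟨k, hk, hk'⟩ := hNUE p e m M hS hme G L ψ hψ z x z' x' hU h3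
      exact h ⟨k, hk, by rw [← hE, hk']⟩
    rw [h1, h2, finsum_mem_empty]
    simp

end Pool.Agent.ND
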