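import Pool.Agent.helper37.ND.Spec
import Pool.Agent.helper58.FI.SpecC

/-!
# Row nd:TDF (MP_baa4d7_al): the alternating sum for `d` is zero
-/

set_option autoImplicit false

namespace Pool.Agent.ND

open Pool.Agent.helper58.DC Pool.Agent.DI Pool.Agent.GR Pool.Agent.OB Pool.Agent.DR Pool.Agent.FI Pool.Agent.FI3 Pool.Agent.FI4 Pool.Agent.FI4I Pool.Agent.LE Pool.Agent.L5 Pool.Agent.NAB

theorem TDF_comm {α β : Type} [Finite α] [Finite β] (S : Set α) (f : α → β → ℂ) :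
    ∑ᶠ a ∈ S, ∑ᶠ b, f a b = ∑ᶠ b, ∑ᶠ a ∈ S, f a b := by
  have := finsum_mem_comm f (Set.toFinite S) (Set.finite_univ (α := β))
  simpa only [finsum_mem_univ] using this

theorem TDF (hTDL : TDL_stmt) (hNTG : NTG_stmt) (hFT0 : FT0_stmt) (hFNO : FNO_stmt) (hNEG : NEG_stmt) : TDF_stmt := by
  classical
  intro p e m M hM hme G _ _ χ hχ z x hU hG d hN
  have : Fact p.Prime := ⟨hM.pr⟩
  set g : Subgroup G → ℤ := fun N => (Nat.card N : ℤ) * ((BlkD p M χ N d).ncard : ℤ) with hg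
  set F : Subgroup G → Subgroup G → ℂ := fun E' K => (Nat.card K : ℂ) *
    ∑ᶠ η ∈ BE p e m M (⊤ : Subgroup G) K E' χ, (if Defect p K η d then (1 : ℂ) else 0) with hF
  have h1 : (Nat.card G : ℤ) * altSum (trivE G) p M χ d ⊤ = cSum p (⊤ : Subgroup G) ⊥ ⊤ g := by
    rw [hFT0 G p M hG χ hχ d, hFNO G p ⊤ ⊥ ⊤ g (IsPGroup.of_bot) bot_le]
    refine finsum_mem_congr rfl fun C _ => ?_
    rw [top_inf_eq]
  have hgc : ∀ N : Subgroup G, ((g N : ℤ) : ℂ) = ∑ᶠ E' : Subgroup G, F E' (N ⊓ nz E') := by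
    intro N
    rw [hg, hF]
    push_cast
    exact hTDL p e m M hM hme G χ hχ z x hU N d (hN N)
  have h2 : ((cSum p (⊤ : Subgroup G) ⊥ ⊤ g : ℤ) : ℂ) =
      ∑ᶠ C ∈ {C : Finset (Subgroup G) | PCh p ⊤ ⊥ C}, ∑ᶠ E' : Subgroup G, (-1 : ℂ) ^ (C.card + 1) * F E' (nrm C ⊓ nz E') := by
    have hf : {C : Finset (Subgroup G) | PCh p ⊤ ⊥ C}.Finite := Set.toFinite _
    unfold cSum
    rw [finsum_mem_eq_finite_toFinset_sum _ hf, finsum_mem_eq_finite_toFinset_sum _ hf, Int.cast_sum]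
    refine Finset.sum_congr rfl fun C _ => ?_
    rw [Int.cast_mul, top_inf_eq, hgc, mul_finsum]
    push_cast
    rfl
  have key : ∀ E' K : Subgroup G, F E' K ≠ 0 → E' ≤ K ∧ IsPGroup p E' ∧ ¬ E' ≤ ⊥ := by
    intro E' K hne
    have hB : (BE p e m M (⊤ : Subgroup G) K E' χ).Nonempty := by
      rw [Set.nonempty_iff_ne_empty]
      intro h0
      apply hne
      rw [hF]
      simp only [h0, finsum_mem_empty, mul_zero]
    obtain ⟨η, h3, h4, z', x', h5, h6⟩ := hB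
    obtain ⟨-, b2, -, -, -, b6, -⟩ := hNEG p e hM.pr G z'
    subst h6
    refine ⟨b2 K h5.zm, b6.1 h5.pe, fun hle => ?_⟩
    exact (b6.2 (by omega) h5.od).1 (le_bot_iff.1 hle)
  have h3 : ∀ E' : Subgroup G,
      ∑ᶠ C ∈ {C : Finset (Subgroup G) | PCh p ⊤ ⊥ C}, (-1 : ℂ) ^ (C.card + 1) * F E' (nrm C ⊓ nz E') = 0 := by
    intro E'
    by_cases hz : ∀ K : Subgroup G, F E' K = 0
    · simp only [hz, mul_zero, finsum_zero]
    · rw [not_forall] at hz
      obtain ⟨K, hK⟩ := hz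
      obtain ⟨-, hp, hnE⟩ := key E' K hK
      have h4 := hNTG G p ⊥ E' (F E') hp hnE
      rw [← h4]
      rw [finsum_mem_def, finsum_mem_def]
      refine finsum_congr fun C => ?_
      simp only [Set.indicator_apply, Set.mem_ofPred_eq]
      by_cases hP : PCh p ⊤ ⊥ C
      · by_cases hE : E' ≤ nrm C
        · rw [if_pos hP, if_pos ⟨hP, hE⟩, inf_comm]
        · rw [if_pos hP, if_neg (fun h => hE h.2)]
          have h5 : F E' (nrm C ⊓ nz E') = 0 := by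
            by_contra h6
            exact hE ((key E' _ h6).1.trans inf_le_left)
          rw [h5, mul_zero]
      · rw [if_neg hP, if_neg (fun h => hP h.1)]
  have h4 : ((cSum p (⊤ : Subgroup G) ⊥ ⊤ g : ℤ) : ℂ) = 0 := by
    rw [h2, TDF_comm, finsum_congr h3, finsum_zero]
  have h5 : cSum p (⊤ : Subgroup G) ⊥ ⊤ g = 0 := by exact_mod_cast h4
  rw [h5] at h1
  exact (mul_eq_zero.1 h1).resolve_left (by exact_mod_cast Nat.card_pos.ne')

end Pool.Agent.ND
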