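import Pool.Agent.helper37.ND.Spec
import Pool.Agent.helper97.NA.SpecE
import Pool.Agent.helper97.ND.TDI

/-!
# Row nd:TDL (MP_baa4d7_al): the characters of defect `d` of the subgroup `N`
-/

set_option autoImplicit false

namespace Pool.Agent.ND

open Pool.Agent.helper58.DC Pool.Agent.DI Pool.Agent.GR Pool.Agent.OB Pool.Agent.DR Pool.Agent.FI Pool.Agent.FI3 Pool.Agent.FI4 Pool.Agent.FI4I Pool.Agent.LE Pool.Agent.L5 Pool.Agent.NAB

/-- iterated sums -/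
theorem TDL_iter {α γ : Type} (X : α → Set γ) (v : α × γ → ℂ)
    (hfin : ({b : α × γ | b.2 ∈ X b.1}).Finite) :
    ∑ᶠ b ∈ {b : α × γ | b.2 ∈ X b.1}, v b = ∑ᶠ i, ∑ᶠ y ∈ X i, v (i, y) := by
  classical
  rw [finsum_mem_def, finsum_curry]
  · apply finsum_congr
    intro i
    rw [finsum_mem_def]
    apply finsum_congr
    intro y
    by_cases h : y ∈ X i
    · have h' : (i, y) ∈ {b : α × γ | b.2 ∈ X b.1} := h
      rw [Set.indicator_of_mem h, Set.indicator_of_mem h']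
    · have h' : (i, y) ∉ {b : α × γ | b.2 ∈ X b.1} := h
      rw [Set.indicator_of_notMem h, Set.indicator_of_notMem h']
  · exact hfin.subset Set.support_indicator_subset

theorem TDL_cjF {G : Type} [Group G] (l : G) (η : G → ℂ) : cjF l η 1 = η 1 := by
  rw [cjF_apply]
  congr 1
  group

theorem TDL_card {G : Type} [Group G] (K : Subgroup G) (g : G) : Nat.card (cjS g K : Subgroup G) = Nat.card K :=
  (Nat.card_congr (K.equivMapOfInjective _ (MulAut.conj g).injective).toEquiv).symm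

theorem TDL (hXPB : Pool.Agent.NAB.XPB_stmt) (hTDI : TDI_stmt) (hTDC : TDC_stmt) (hNUH : NUH_stmt) (hNUX : NUX_stmt)
    (hTRN : Pool.Agent.FI.TRN_stmt) (hTPR : Pool.Agent.FI.TPR_stmt) (hB2 : B2_stmt) : TDL_stmt := by
  classical
  intro p e m M hM hme G _ _ χ hχ z x hU N d hN
  have tpr := hTPR p M hM G
  have hBlk : Blk M χ N = Bq M ⊤ N χ := tpr.2.2.2.1 χ N
  have hvan : ∀ (K : Subgroup G) (φ : G → ℂ), φ ∈ IrrOn K → K ≤ N → ∀ x, x ∉ N → φ x = 0 :=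
    fun K φ hφ hK x hx => hφ.1 x fun h => hx (hK h)
  have htr : ∀ (K : Subgroup G) (φ ψ : G → ℂ), φ ∈ IrrOn K → K ≤ N → ψ ∈ IrrOn N → SB M N φ ψ →
      (SB M ⊤ ψ χ ↔ SB M ⊤ φ χ) := fun K φ ψ hφ hK hψ h =>
    (hTRN G M N ⊤ le_top φ ψ χ (hvan K φ hφ hK) (hvan N ψ hψ le_rfl) h).2
  set A : Set (G → ℂ) := Blk M χ N with hA
  have hAmem : ∀ φ, φ ∈ A ↔ φ ∈ IrrOn N ∧ SB M ⊤ φ χ := fun φ => by
    rw [hBlk]
    exact Iff.rfl
  set B : Set (Subgroup G × (G → ℂ)) :=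
    {b | b.2 ∈ BE p e m M (⊤ : Subgroup G) (N ⊓ nz b.1) b.1 χ} with hB
  have hfinI : ∀ K : Subgroup G, (IrrOn K).Finite := fun K => (hB2 G K).1
  have hfin : ∀ (L : Subgroup G) (ψ : G → ℂ),
      ({b : Subgroup G × (G → ℂ) | b.2 ∈ BE p e m M L (N ⊓ nz b.1) b.1 ψ}).Finite := by
    intro L ψ
    apply ((Set.finite_univ (α := Subgroup G)).prod
      (Set.finite_iUnion fun E' : Subgroup G => hfinI (N ⊓ nz E'))).subset
    rintro ⟨E', η⟩ hη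
    exact ⟨trivial, Set.mem_iUnion.2 ⟨E', hη.1⟩⟩
  have hAfin : A.Finite := (hfinI N).subset fun φ hφ => ((hAmem φ).1 hφ).1
  -- the classes of `N`
  have hcl : ∀ φ ∈ A, {φ' | φ' ∈ A ∧ SB M N φ φ'} = Bl M N φ := by
    intro φ hφ
    have hφ' := (hAmem φ).1 hφ
    ext ψ
    constructor
    · rintro ⟨h1, h2⟩
      exact ⟨((hAmem ψ).1 h1).1, h2.symm⟩
    · rintro ⟨h1, h2⟩
      exact ⟨(hAmem ψ).2 ⟨h1, (htr N φ ψ hφ'.1 le_rfl h1 h2.symm).2 hφ'.2⟩, h2.symm⟩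
  have key := hXPB (G → ℂ) (Subgroup G × (G → ℂ)) A B hAfin (hfin ⊤ χ)
    (fun φ => if Defect p N φ d then (1 : ℂ) else 0)
    (fun b => (Nat.card (N ⊓ nz b.1 : Subgroup G) : ℂ) * if Defect p (N ⊓ nz b.1) b.2 d then (1 : ℂ) else 0)
    (Nat.card N : ℂ) (fun φ φ' => SB M N φ φ') (fun b φ => SB M N b.2 φ) ?_ ?_ ?_ ?_ ?_ ?_
  · have h1 : ((BlkD p M χ N d).ncard : ℂ) = ∑ᶠ φ ∈ A, (if Defect p N φ d then (1 : ℂ) else 0) := by
      rw [TDI_cnt hAfin]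
      rfl
    rw [h1, ← key, hB, TDL_iter (fun E' => BE p e m M (⊤ : Subgroup G) (N ⊓ nz E') E' χ) _
      (hfin ⊤ χ)]
    apply finsum_congr
    intro E'
    rw [mul_finsum_mem]
  · rintro ⟨E', η⟩ ⟨h1, h2, z', x', h3, h4⟩
    obtain ⟨ψ, hψ, h5⟩ := hNUX p e m M hM G N E' η h1 z' x' h3 h4
    exact ⟨ψ, (hAmem ψ).2 ⟨hψ, (htr (N ⊓ nz E') η ψ h1 inf_le_left hψ h5).2 h2⟩, h5⟩
  · intro φ
    exact SB.refl N φ
  · intro φ φ' h
    exact h.symm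
  · intro φ φ' φ'' h h'
    exact h.trans h'
  · intro b _ φ _ φ' _ h
    exact ⟨fun h' => h.symm.trans h', fun h' => h.trans h'⟩
  · intro φ hφ
    have hφ' := (hAmem φ).1 hφ
    obtain ⟨l, -, hl⟩ := hNUH p e m M hM G ⊤ N le_top φ hφ'.1 χ z x hφ'.2 hU
    have h1 := hTDI p e m M hM G N d hN φ hφ'.1 _ _ hl
    have h2 := hTDC p e m M hM hme G N φ hφ'.1 _ _ hl (fun K η => if Defect p K η d then (1 : ℂ) else 0)
      (fun l _ K η => by
        have h0 : Defect p (cjS l K) (cjF l η) d ↔ Defect p K η d := by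
          unfold Defect
          rw [TDL_card, TDL_cjF]
        simp only [h0])
    have h3 : {b | b ∈ B ∧ SB M N b.2 φ} =
        {b : Subgroup G × (G → ℂ) | b.2 ∈ BE p e m M N (N ⊓ nz b.1) b.1 φ} := by
      ext b
      constructor
      · rintro ⟨⟨h4, h5, h6⟩, h7⟩
        exact ⟨h4, h7, h6⟩
      · rintro ⟨h4, h5, h6⟩
        exact ⟨⟨h4, (htr _ b.2 φ h4 inf_le_left hφ'.1 h5).1 hφ'.2, h6⟩, h5⟩
    show ∑ᶠ b ∈ {b | b ∈ B ∧ SB M N b.2 φ},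
      ((Nat.card (N ⊓ nz b.1 : Subgroup G) : ℂ) * if Defect p (N ⊓ nz b.1) b.2 d then (1 : ℂ) else 0) =
        (Nat.card N : ℂ) * ∑ᶠ a' ∈ {a' | a' ∈ A ∧ SB M N φ a'}, (if Defect p N a' d then (1 : ℂ) else 0)
    rw [hcl φ hφ, h1, ← h2, h3, TDL_iter (fun E' => BE p e m M N (N ⊓ nz E') E' φ) _ (hfin N φ)]
    apply finsum_congr
    intro E'
    rw [mul_finsum_mem]

end Pool.Agent.ND
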